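import Pool.Agent.Run7.h450.CE.Iface

/-!
# Piece CS of the project CE (helper450): Cauchy-Schwarz for rows over a C*-algebra
-/

set_option autoImplicit false
open Filter Topology Matrix
open scoped ComplexOrder

namespace Run7.h842.CE

open Run7.h450.CE

/-- nonnegative elements for the spectral order -/
lemma pos_of_nonneg {B : Type} [CStarAlgebra B] [PartialOrder B] [StarOrderedRing B] (x : B)
    (h : 0 ≤ x) : Pos x := by
  obtain ⟨c, hc⟩ := CStarAlgebra.nonneg_iff_eq_star_mul_self.1 h
  exact ⟨c, hc⟩

lemma nonneg_of_pos {B : Type} [CStarAlgebra B] [PartialOrder B] [StarOrderedRing B] (x : B)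
    (h : Pos x) : 0 ≤ x := by
  obtain ⟨c, hc⟩ := h
  rw [hc]
  exact star_mul_self_nonneg c

/-- **CS** -/
theorem t_CS : S_CS := by
  intro B _ M _ a b
  letI : PartialOrder B := CStarAlgebra.spectralOrder B
  haveI : StarOrderedRing B := CStarAlgebra.spectralOrderedRing B
  apply pos_of_nonneg
  rw [sub_nonneg]
  let x : WithCStarModule B (M → B) := (WithCStarModule.equiv B (M → B)).symm a
  let y : WithCStarModule B (M → B) := (WithCStarModule.equiv B (M → B)).symm fun κ => star (b κ)
  have h := CStarModule.inner_mul_inner_swap_le (A := B) (x := x) (y := y)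
  have hxy : (inner B x y : B) = star (∑ κ, a κ * b κ) := by
    rw [WithCStarModule.pi_inner, star_sum]
    apply Finset.sum_congr rfl
    intro κ _
    show star (b κ) * star (a κ) = _
    rw [star_mul]
  have hyx : (inner B y x : B) = ∑ κ, a κ * b κ := by
    rw [WithCStarModule.pi_inner]
    apply Finset.sum_congr rfl
    intro κ _
    show a κ * star (star (b κ)) = _
    rw [star_star]
  have hyy : (inner B y y : B) = ∑ κ, star (b κ) * b κ := by
    rw [WithCStarModule.pi_inner]
    apply Finset.sum_congr rfl
    intro κ _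
    show star (b κ) * star (star (b κ)) = _
    rw [star_star]
  have hxx : ‖x‖ ^ 2 = ‖∑ κ, a κ * star (a κ)‖ := by
    rw [WithCStarModule.pi_norm_sq]
    rfl
  rw [hxy, hyx, hyy, hxx] at h
  rw [Complex.coe_smul]
  exact h

end Run7.h842.CE
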