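import Pool.Agent.Run7.h450.CE.Iface

/-!
# Piece EIG of the project CE (helper450): eigenvectors of a positive matrix
-/

set_option autoImplicit false
open Filter Topology Matrix
open scoped ComplexOrder

namespace Run7.h842.CE

open Run7.h450.CE

section
variable {K : Type} [Fintype K] [DecidableEq K]

/-- conjugated diagonal matrices -/
noncomputable def Ph (U : Matrix K K ℂ) (f : K → ℂ) : Matrix K K ℂ := U * diagonal f * star U

lemma Ph_mul (U : Matrix K K ℂ) (h : star U * U = 1) (f g : K → ℂ) :
    Ph U f * Ph U g = Ph U (fun i => f i * g i) := by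
  unfold Ph
  calc U * diagonal f * star U * (U * diagonal g * star U)
      = U * diagonal f * (star U * U) * diagonal g * star U := by simp only [Matrix.mul_assoc]
    _ = U * (diagonal f * diagonal g) * star U := by rw [h]; simp only [Matrix.mul_one, Matrix.mul_assoc]
    _ = _ := by rw [Matrix.diagonal_mul_diagonal]

lemma Ph_one (U : Matrix K K ℂ) (h : U * star U = 1) : Ph U (fun _ => 1) = 1 := by
  unfold Ph
  rw [Matrix.diagonal_one, Matrix.mul_one, h]

lemma Ph_sub (U : Matrix K K ℂ) (f g : K → ℂ) :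
    Ph U f - Ph U g = Ph U (fun i => f i - g i) := by
  unfold Ph
  rw [← Matrix.sub_mul, ← Matrix.mul_sub, Matrix.diagonal_sub]

lemma Ph_smul (U : Matrix K K ℂ) (c : ℂ) (f : K → ℂ) :
    c • Ph U f = Ph U (fun i => c * f i) := by
  unfold Ph
  rw [← Matrix.smul_mul, ← Matrix.mul_smul, ← Matrix.diagonal_smul]
  rfl

lemma Ph_pos (U : Matrix K K ℂ) (f : K → ℝ) (hf : ∀ i, 0 ≤ f i) :
    Pos (Ph U (fun i => (f i : ℂ))) := by
  refine ⟨diagonal (fun i => ((Real.sqrt (f i) : ℝ) : ℂ)) * star U, ?_⟩
  unfold Ph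
  rw [star_mul, star_star, Matrix.star_eq_conjTranspose (diagonal _), Matrix.diagonal_conjTranspose]
  have e : star (fun i => ((Real.sqrt (f i) : ℝ) : ℂ)) = fun i => ((Real.sqrt (f i) : ℝ) : ℂ) := by
    funext i
    simp
  rw [e]
  calc U * diagonal (fun i => (f i : ℂ)) * star U
      = U * (diagonal (fun i => ((Real.sqrt (f i) : ℝ) : ℂ)) *
        diagonal (fun i => ((Real.sqrt (f i) : ℝ) : ℂ))) * star U := by
        rw [Matrix.diagonal_mul_diagonal]
        congr 3
        funext i
        rw [← Complex.ofReal_mul, Real.mul_self_sqrt (hf i)]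
    _ = _ := by simp only [Matrix.mul_assoc]

lemma Ph_apply (U : Matrix K K ℂ) (f : K → ℂ) (a b : K) :
    Ph U f a b = ∑ i, U a i * f i * star (U b i) := by
  unfold Ph
  rw [Matrix.mul_apply]
  apply Finset.sum_congr rfl
  intro i _
  rw [Matrix.mul_diagonal, Matrix.star_apply]

end

open Classical in
/-- **EIG** -/
theorem t_EIG : S_EIG := by
  intro K _ _ m δ hm hδ
  obtain ⟨c, hc⟩ := hm
  have hps : m.PosSemidef := by
    rw [hc, Matrix.star_eq_conjTranspose]
    exact posSemidef_conjTranspose_mul_self c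
  have hH := hps.isHermitian
  set U : Matrix K K ℂ := (hH.eigenvectorUnitary : Matrix K K ℂ) with hU
  set lam := hH.eigenvalues with hlam
  have hUU : star U * U = 1 := Unitary.coe_star_mul_self _
  have hUU' : U * star U = 1 := Unitary.coe_mul_star_self _
  have hspec : m = Ph U (fun i => (lam i : ℂ)) := by
    have h := hH.spectral_theorem
    rw [Unitary.conjStarAlgAut_apply] at h
    exact h
  have hlam0 : ∀ i, 0 ≤ lam i := fun i => hps.eigenvalues_nonneg i
  set ch : K → ℝ := fun i => if δ ≤ lam i then 1 else 0 with hch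
  have hchi : (∑ κ : {i : K // δ ≤ lam i}, Matrix.vecMulVec (fun k => U k κ.1)
      (star fun k => U k κ.1)) = Ph U (fun i => (ch i : ℂ)) := by
    ext a b
    rw [Ph_apply, Matrix.sum_apply]
    simp only [Matrix.vecMulVec_apply, Pi.star_apply]
    rw [← Finset.sum_subtype (Finset.univ.filter fun i => δ ≤ lam i) (by simp)
      (fun i => U a i * star (U b i)), Finset.sum_filter]
    apply Finset.sum_congr rfl
    intro i _
    simp only [hch]
    split_ifs <;> simp
  refine ⟨{i : K // δ ≤ lam i}, inferInstance, inferInstance, fun κ k => U k κ.1, ?_, ?_, ?_⟩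
  · intro κ κ'
    have h : (star U * U) κ.1 κ'.1 = (1 : Matrix K K ℂ) κ.1 κ'.1 := by rw [hUU]
    rw [Matrix.mul_apply, Matrix.one_apply] at h
    simp only [Matrix.star_apply] at h
    rw [h]
    simp only [Subtype.ext_iff]
  · rw [hchi, hspec, Ph_smul, Ph_sub]
    have e : (fun i => (lam i : ℂ) - (δ : ℂ) * (ch i : ℂ)) =
        fun i => ((lam i - δ * ch i : ℝ) : ℂ) := by
      funext i; push_cast; ring
    rw [e]
    apply Ph_pos
    intro i
    simp only [hch]
    split_ifs with h
    · linarith
    · simpa using hlam0 i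
  · rw [hchi, ← Ph_one U hUU', hspec, Ph_sub, Ph_mul U hUU, Ph_mul U hUU, Ph_smul, Ph_sub]
    have e : (fun i => (δ : ℂ) * 1 - (1 - (ch i : ℂ)) * (lam i : ℂ) * (1 - (ch i : ℂ))) =
        fun i => ((δ - (1 - ch i) * lam i * (1 - ch i) : ℝ) : ℂ) := by
      funext i; push_cast; ring
    rw [e]
    apply Ph_pos
    intro i
    simp only [hch]
    split_ifs with h
    · simp; exact hδ.le
    · push Not at h
      linarith

end Run7.h842.CE
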