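import Pool.Agent.Run7.h450.CE.Iface

/-!
# Piece TN of the project CE (helper450): the norm of the map of a compatible system
-/

set_option autoImplicit false
open Filter Topology Matrix
open scoped ComplexOrder

namespace Run7.h842.CE

open Run7.h450.CE

/-- a row of elements with orthogonal ranges -/
lemma row_le {B : Type} [CStarAlgebra B] {M : Type} [Fintype M] [DecidableEq M] (X : M → B)
    (h0 : ∀ p q, p ≠ q → star (X p) * X q = 0) (h1 : ∀ p, Pos (1 - star (X p) * X p)) :
    ‖∑ p, X p * star (X p)‖ ≤ 1 := by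
  let _ : PartialOrder B := CStarAlgebra.spectralOrder B
  have _ : StarOrderedRing B := CStarAlgebra.spectralOrderedRing B
  set a := ∑ p, X p * star (X p) with ha
  have hsa : star a = a := by
    rw [ha, star_sum]
    apply Finset.sum_congr rfl
    intro p _
    rw [star_mul, star_star]
  have haa : a * a = ∑ p, X p * (star (X p) * X p) * star (X p) := by
    rw [ha, Finset.sum_mul]
    apply Finset.sum_congr rfl
    intro p _
    rw [Finset.mul_sum, Finset.sum_eq_single p]
    · simp only [mul_assoc]
    · intro q _ hq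
      have : X p * star (X p) * (X q * star (X q)) = X p * (star (X p) * X q) * star (X q) := by
        simp only [mul_assoc]
      rw [this, h0 p q (Ne.symm hq), mul_zero, zero_mul]
    · intro hp
      exact absurd (Finset.mem_univ p) hp
  have hle : a * a ≤ a := by
    rw [haa, ha]
    apply Finset.sum_le_sum
    intro p _
    rw [← sub_nonneg]
    obtain ⟨c, hc⟩ := h1 p
    have e : X p * star (X p) - X p * (star (X p) * X p) * star (X p) =
        star (c * star (X p)) * (c * star (X p)) := by
      have e1 : X p * star (X p) - X p * (star (X p) * X p) * star (X p) =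
          X p * (1 - star (X p) * X p) * star (X p) := by
        rw [mul_sub, mul_one, sub_mul]
      rw [e1, hc, star_mul, star_star]
      simp only [mul_assoc]
    rw [e]
    exact star_mul_self_nonneg _
  have h0' : 0 ≤ a * a := by
    have := star_mul_self_nonneg a
    rwa [hsa] at this
  have hn := CStarAlgebra.norm_le_norm_of_nonneg_of_le h0' hle
  have hn2 : ‖a * a‖ = ‖a‖ * ‖a‖ := by
    have := CStarRing.norm_star_mul_self (x := a)
    rwa [hsa] at this
  rw [hn2] at hn
  by_contra hcon
  push Not at hcon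
  nlinarith

open Classical in
/-- **TN** -/
theorem t_TN : S_PSI → S_TN := by
  intro hPSI d N B _ P c z
  have key : ∀ q : Fin (d + 1), ‖∑ i : {i : c.ι // c.col i = q}, ∑ k, ∑ l,
      (c.ψ i.1 z k l) • (c.x i.1 k * star (c.x i.1 l))‖ ≤ ‖z‖ := by
    intro q
    have h := hPSI B {i : c.ι // c.col i = q} (fun i => c.K i.1) (fun i => c.ψ i.1)
      (fun _ => 1) 1 z 1 (fun i k => c.x i.1 k) (fun i k => c.x i.1 k)
      (fun i => c.ψ_cp i.1) (fun i => c.ψ_one i.1) (star_one B) (mul_one 1) (one_mul z)
      zero_le_one (by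
        intro i
        have := c.ψ_one i.1
        simpa using this)
    simp only [Matrix.one_mul, Real.sqrt_one, one_mul] at h
    have hrow : ‖∑ i : {i : c.ι // c.col i = q}, ∑ k, c.x i.1 k * star (c.x i.1 k)‖ ≤ 1 := by
      have h2 := row_le (M := Σ i : {i : c.ι // c.col i = q}, c.K i.1)
        (fun p => c.x p.1.1 p.2) (by
          rintro ⟨⟨i, hi⟩, k⟩ ⟨⟨i', hi'⟩, k'⟩ hne
          apply c.orth i k i' k' (hi.trans hi'.symm)
          intro heq
          apply hne
          have h3 : i = i' := (Sigma.mk.inj_iff.1 heq).1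
          subst h3
          have h4 : k = k' := eq_of_heq (Sigma.mk.inj_iff.1 heq).2
          subst h4
          rfl) (by
          rintro ⟨⟨i, hi⟩, k⟩
          show Pos (1 - star (c.x i k) * c.x i k)
          rw [c.mod]
          exact c.h_le i)
      rw [Fintype.sum_sigma] at h2
      exact h2
    have hs : √‖∑ i : {i : c.ι // c.col i = q}, ∑ k, c.x i.1 k * star (c.x i.1 k)‖ ≤ 1 := by
      rw [Real.sqrt_le_one]
      exact hrow
    have hs0 := Real.sqrt_nonneg ‖∑ i : {i : c.ι // c.col i = q}, ∑ k, c.x i.1 k * star (c.x i.1 k)‖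
    refine h.trans ?_
    have hz := norm_nonneg z
    calc _ ≤ ‖z‖ * 1 * 1 := by gcongr
      _ = ‖z‖ := by ring
  have hsum : c.T z = ∑ q : Fin (d + 1), ∑ i : {i : c.ι // c.col i = q}, ∑ k, ∑ l,
      (c.ψ i.1 z k l) • (c.x i.1 k * star (c.x i.1 l)) := by
    unfold CSys.T
    exact (Fintype.sum_fiberwise c.col (fun i => ∑ k, ∑ l,
      (c.ψ i z k l) • (c.x i k * star (c.x i l)))).symm
  rw [hsum]
  calc _ ≤ ∑ q : Fin (d + 1), ‖∑ i : {i : c.ι // c.col i = q}, ∑ k, ∑ l,
      (c.ψ i.1 z k l) • (c.x i.1 k * star (c.x i.1 l))‖ := norm_sum_le _ _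
    _ ≤ ∑ _q : Fin (d + 1), ‖z‖ := Finset.sum_le_sum fun q _ => key q
    _ = (d + 1) * ‖z‖ := by simp

end Run7.h842.CE
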